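import Pool.Agent.Lib.MP_8d4425_gt.H48.EndB

set_option autoImplicit false

/-!
# The ODE theorem for the PNMC case: statement

Local data: a curve `(T, N)` in `E = R^d` and numbers `r i = 1 / ρ i` with
`T' = g - <g,T> T - (1-μ) <g,N> N`, `N' = - μ <g,N> T`, `r_i' = - r_i² <c i i, T>`,
`g = ∑ r_i c i i`, and equation (G) with `Q = ∑ <c i j, N>² r_i r_j`.
-/

namespace PBH48

/-- The space. -/
abbrev Ed (d : ℕ) : Type := EuclideanSpace ℝ (Fin d)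

/-- `g`. -/
noncomputable def gg {n d : ℕ} (c : Fin n → Fin n → Ed d) (r : Fin n → ℝ) : Ed d :=
  ∑ i, r i • c i i

/-- `κ`. -/
noncomputable def ka {n d : ℕ} (μ : ℝ) (c : Fin n → Fin n → Ed d) (N : Ed d) (r : Fin n → ℝ) :
    ℝ := μ * inner ℝ (gg c r) N

/-- `b = tr S`. -/
noncomputable def bb {n d : ℕ} (c : Fin n → Fin n → Ed d) (T : Ed d) (r : Fin n → ℝ) : ℝ :=
  inner ℝ (gg c r) T

/-- `g'`. -/
noncomputable def gg1 {n d : ℕ} (c : Fin n → Fin n → Ed d) (T : Ed d) (r : Fin n → ℝ) : Ed d :=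
  ∑ i, (-(r i ^ 2 * inner ℝ (c i i) T)) • c i i

/-- `κ'`. -/
noncomputable def ka1 {n d : ℕ} (μ : ℝ) (c : Fin n → Fin n → Ed d) (T N : Ed d)
    (r : Fin n → ℝ) : ℝ :=
  μ * (inner ℝ (gg1 c T r) N + inner ℝ (gg c r) ((-(ka μ c N r)) • T))

/-- `tr A²`. -/
noncomputable def qq {n d : ℕ} (c : Fin n → Fin n → Ed d) (N : Ed d) (r : Fin n → ℝ) : ℝ :=
  ∑ i, ∑ j, (inner ℝ (c i j) N : ℝ) ^ 2 * (r i * r j)

/-- Local data with equation (G), `κ < 0`, `κ' < 0` at the start. -/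
structure Loc2 (n d : ℕ) (μ ν ε : ℝ) (c : Fin n → Fin n → Ed d) (T N : ℝ → Ed d)
    (r : Fin n → ℝ → ℝ) : Prop where
  pos : 0 < ε
  r0 : ∀ i, r i 0 = 1
  T0 : ‖T 0‖ = 1
  N0 : ‖N 0‖ = 1
  TN : inner ℝ (T 0) (N 0) = (0 : ℝ)
  dT : ∀ s ∈ Set.Ioo (-ε) ε, HasDerivAt T (gg c (fun i => r i s) -
    (inner ℝ (gg c (fun i => r i s)) (T s) : ℝ) • T s -
    ((1 - μ) * inner ℝ (gg c (fun i => r i s)) (N s)) • N s) s
  dN : ∀ s ∈ Set.Ioo (-ε) ε, HasDerivAt N ((-(ka μ c (N s) (fun i => r i s))) • T s) s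
  dr : ∀ s ∈ Set.Ioo (-ε) ε, ∀ i,
    HasDerivAt (r i) (-(r i s ^ 2 * inner ℝ (c i i) (T s))) s
  neg : ka μ c (N 0) (fun i => r i 0) < 0
  neg1 : ka1 μ c (T 0) (N 0) (fun i => r i 0) < 0
  eq : ∀ s ∈ Set.Ioo (-ε) ε, HasDerivAt (fun t => ka1 μ c (T t) (N t) (fun i => r i t))
    (ka μ c (N s) (fun i => r i s) * ((1 + ν) * ka μ c (N s) (fun i => r i s) ^ 2 +
      qq c (N s) (fun i => r i s)) -
      bb c (T s) (fun i => r i s) * ka1 μ c (T s) (N s) (fun i => r i s)) s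

/-- The ODE theorem. -/
def Ode2Statement : Prop :=
  ∀ (n d : ℕ) (μ ν ε : ℝ) (c : Fin n → Fin n → Ed d) (T N : ℝ → Ed d) (r : Fin n → ℝ → ℝ),
    0 < μ → μ ≤ 1 → 0 ≤ ν → ¬ Loc2 n d μ ν ε c T N r

end PBH48
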