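import Pool.Agent.Lib.MP_8d4425_gt.E54.Tools

set_option autoImplicit false

/-!
# The end game in a Euclidean space of any dimension

`z' = P T`, `T' = P (g - <g,T> T - (1-μ) <g,N> N)`, `N' = P q T`, `q = - μ <g,N>`,
`g = ∇ log P`, `P = ∏ (1 + <c i, z>)`, `q' = w ≥ w0 > 0`, `w' ≥ P² q³`: no solution for all times.
-/

namespace PBH48

open Filter Topology PBH54

variable {E : Type} [NormedAddCommGroup E] [InnerProductSpace ℝ E] {n : ℕ}

/-- The affine functions. -/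
noncomputable def rh (c : Fin n → E) (z : E) (i : Fin n) : ℝ := 1 + inner ℝ (c i) z

/-- Their product. -/
noncomputable def Pr (c : Fin n → E) (z : E) : ℝ := ∏ i, rh c z i

/-- The gradient of the logarithm of the product. -/
noncomputable def gr (c : Fin n → E) (z : E) : E := ∑ i, (rh c z i)⁻¹ • c i

/-- A solution on `[0, ∞)`. -/
structure Sol (c : Fin n → E) (μ w0 : ℝ) (z T N : ℝ → E) (q w w1 : ℝ → ℝ) : Prop where
  hμ : 0 < μ
  hμ1 : μ ≤ 1
  hw : 0 < w0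
  pos : ∀ t, 0 ≤ t → ∀ i, 0 < rh c (z t) i
  nT : ∀ t, 0 ≤ t → ‖T t‖ = 1
  nN : ∀ t, 0 ≤ t → ‖N t‖ = 1
  TN : ∀ t, 0 ≤ t → inner ℝ (T t) (N t) = (0 : ℝ)
  dz : ∀ t, 0 ≤ t → HasDerivAt z (Pr c (z t) • T t) t
  dT : ∀ t, 0 ≤ t → HasDerivAt T (Pr c (z t) • (gr c (z t) -
    (inner ℝ (gr c (z t)) (T t) : ℝ) • T t -
    ((1 - μ) * inner ℝ (gr c (z t)) (N t)) • N t)) t
  dN : ∀ t, 0 ≤ t → HasDerivAt N ((Pr c (z t) * q t) • T t) t
  qe : ∀ t, 0 ≤ t → q t = -(μ * inner ℝ (gr c (z t)) (N t))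
  qpos : ∀ t, 0 ≤ t → 0 < q t
  dq : ∀ t, 0 ≤ t → HasDerivAt q (w t) t
  wge : ∀ t, 0 ≤ t → w0 ≤ w t
  dw : ∀ t, 0 ≤ t → HasDerivAt w (w1 t) t
  w1ge : ∀ t, 0 ≤ t → Pr c (z t) ^ 2 * q t ^ 3 ≤ w1 t

section

variable {c : Fin n → E} {μ w0 : ℝ} {z T N : ℝ → E} {q w w1 : ℝ → ℝ}

theorem ip_le (a b : E) : |(inner ℝ a b : ℝ)| ≤ ‖a‖ * ‖b‖ := abs_real_inner_le_norm a b

namespace Sol

theorem q_ge (h : Sol c μ w0 z T N q w w1) : ∀ t, 0 ≤ t → q 0 + w0 * t ≤ q t := by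
  intro t ht
  have h1 := mono_of (f := fun t => q t - w0 * t) (f' := fun t => w t - w0) (a := 0)
    (fun r hr => ((h.dq r hr).sub ((hasDerivAt_id r).const_mul w0)).congr_deriv (by simp))
    (fun r hr => by
      have := h.wge r hr
      linarith) 0 t le_rfl ht
  simp only [mul_zero, sub_zero] at h1
  linarith

theorem q_top (h : Sol c μ w0 z T N q w w1) : Tendsto q atTop atTop := by
  have h1 : Tendsto (fun t => q 0 + w0 * t) atTop atTop :=
    tendsto_atTop_add_const_left _ _ (tendsto_id.const_mul_atTop h.hw)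
  refine tendsto_atTop_mono' _ ?_ h1
  filter_upwards [eventually_ge_atTop 0] with t ht
  exact h.q_ge t ht

theorem P_pos (h : Sol c μ w0 z T N q w w1) : ∀ t, 0 ≤ t → 0 < Pr c (z t) :=
  fun t ht => Finset.prod_pos fun i _ => h.pos t ht i

theorem w1_nonneg (h : Sol c μ w0 z T N q w w1) : ∀ t, 0 ≤ t → 0 ≤ w1 t := fun t ht =>
  le_trans (mul_nonneg (sq_nonneg _) (pow_nonneg (h.qpos t ht).le 3)) (h.w1ge t ht)

theorem dρ (h : Sol c μ w0 z T N q w w1) (i : Fin n) : ∀ t, 0 ≤ t →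
    HasDerivAt (fun t => rh c (z t) i) (Pr c (z t) * inner ℝ (c i) (T t)) t := by
  intro t ht
  have h1 := ((hasDerivAt_const t (c i)).inner ℝ (h.dz t ht)).const_add 1
  refine h1.congr_deriv ?_
  rw [inner_zero_left, add_zero, real_inner_smul_right]

/-- The centre of curvature. -/
theorem dC (h : Sol c μ w0 z T N q w w1) : ∀ t, 0 ≤ t →
    HasDerivAt (fun t => z t - (q t)⁻¹ • N t) ((w t / q t ^ 2) • N t) t := by
  intro t ht
  have hq := (h.qpos t ht).ne'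
  have h1 := (h.dz t ht).sub (((h.dq t ht).inv hq).smul (h.dN t ht))
  refine h1.congr_deriv ?_
  rw [smul_smul, Pi.inv_apply]
  have h2 : (q t)⁻¹ * (Pr c (z t) * q t) = Pr c (z t) := by
    field_simp
  rw [h2, neg_div, neg_smul]
  abel

theorem C_le (h : Sol c μ w0 z T N q w w1) : ∀ s t, 0 ≤ s → s ≤ t →
    ‖(z t - (q t)⁻¹ • N t) - (z s - (q s)⁻¹ • N s)‖ ≤ (q s)⁻¹ - (q t)⁻¹ := by
  intro s t hs hst
  have hd : ∀ r ∈ Set.Icc s t, HasDerivAt
      (fun t => (z t - (q t)⁻¹ • N t) - (z s - (q s)⁻¹ • N s)) ((w r / q r ^ 2) • N r) r :=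
    fun r hr => (h.dC r (hs.trans hr.1)).sub_const _
  have hb : ∀ r ∈ Set.Icc s t, HasDerivAt (fun t => (q s)⁻¹ - (q t)⁻¹) (w r / q r ^ 2) r := by
    intro r hr
    have h1 := ((h.dq r (hs.trans hr.1)).inv (h.qpos r (hs.trans hr.1)).ne').const_sub (q s)⁻¹
    refine h1.congr_deriv ?_
    ring
  refine image_norm_le_of_norm_deriv_right_le_deriv_boundary'
    (f := fun t => (z t - (q t)⁻¹ • N t) - (z s - (q s)⁻¹ • N s))
    (f' := fun r => (w r / q r ^ 2) • N r) (B := fun t => (q s)⁻¹ - (q t)⁻¹)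
    (B' := fun r => w r / q r ^ 2) (a := s) (b := t) ?_ ?_ ?_ ?_ ?_ ?_ ⟨hst, le_rfl⟩
  · intro r hr
    exact (hd r hr).continuousAt.continuousWithinAt
  · intro r hr
    exact (hd r ⟨hr.1, hr.2.le⟩).hasDerivWithinAt
  · simp
  · intro r hr
    exact (hb r hr).continuousAt.continuousWithinAt
  · intro r hr
    exact (hb r ⟨hr.1, hr.2.le⟩).hasDerivWithinAt
  · intro r hr
    have hr0 := hs.trans hr.1
    rw [norm_smul, h.nN r hr0, mul_one, Real.norm_eq_abs, abs_of_nonneg]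
    exact div_nonneg (h.hw.le.trans (h.wge r hr0)) (sq_nonneg _)

theorem exists_limit [CompleteSpace E] (h : Sol c μ w0 z T N q w w1) :
    ∃ x, Tendsto z atTop (𝓝 x) ∧ ∀ t, 0 ≤ t → ‖z t - x‖ ≤ 2 / q t := by
  have hC : CauchySeq (fun t => z (max 0 t) - (q (max 0 t))⁻¹ • N (max 0 t)) := by
    refine cauchySeq_of_le_tendsto_0' (fun t => (q (max 0 t))⁻¹) ?_ ?_
    · intro s t hst
      have h1 := h.C_le (max 0 s) (max 0 t) (le_max_left _ _) (max_le_max_left _ hst)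
      rw [dist_comm, dist_eq_norm]
      have h2 : 0 < (q (max 0 t))⁻¹ := inv_pos.mpr (h.qpos _ (le_max_left _ _))
      linarith
    · refine (tendsto_inv_atTop_zero.comp h.q_top).congr' ?_
      filter_upwards [eventually_ge_atTop 0] with t ht
      simp [max_eq_right ht]
  obtain ⟨x, hx⟩ := cauchySeq_tendsto_of_complete hC
  have hx' : Tendsto (fun t => z t - (q t)⁻¹ • N t) atTop (𝓝 x) := by
    refine hx.congr' ?_
    filter_upwards [eventually_ge_atTop 0] with t ht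
    simp [max_eq_right ht]
  have hxl : ∀ t, 0 ≤ t → ‖z t - x‖ ≤ 2 / q t := by
    intro t ht
    have h1 : Tendsto (fun r => ‖(z r - (q r)⁻¹ • N r) - (z t - (q t)⁻¹ • N t)‖) atTop
        (𝓝 ‖x - (z t - (q t)⁻¹ • N t)‖) := (hx'.sub_const _).norm
    have h2 : ‖x - (z t - (q t)⁻¹ • N t)‖ ≤ (q t)⁻¹ := by
      refine le_of_tendsto h1 ?_
      filter_upwards [eventually_ge_atTop t] with r hr
      have h3 := h.C_le t r ht hr
      have h4 : 0 < (q r)⁻¹ := inv_pos.mpr (h.qpos r (ht.trans hr))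
      linarith
    have h3 : z t - x = (q t)⁻¹ • N t - (x - (z t - (q t)⁻¹ • N t)) := by abel
    have hq := h.qpos t ht
    have h4 : ‖(q t)⁻¹ • N t‖ = (q t)⁻¹ := by
      rw [norm_smul, h.nN t ht, mul_one, Real.norm_eq_abs, abs_of_pos (inv_pos.mpr hq)]
    calc ‖z t - x‖ ≤ ‖(q t)⁻¹ • N t‖ + ‖x - (z t - (q t)⁻¹ • N t)‖ := by
          rw [h3]
          exact norm_sub_le _ _
      _ ≤ (q t)⁻¹ + (q t)⁻¹ := by
          rw [h4]
          linarith
      _ = 2 / q t := by ring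
  refine ⟨x, ?_, hxl⟩
  rw [tendsto_iff_norm_sub_tendsto_zero]
  refine squeeze_zero' (Eventually.of_forall fun t => norm_nonneg _) ?_
    (h.q_top.const_div_atTop 2)
  filter_upwards [eventually_ge_atTop 0] with t ht
  exact hxl t ht

end Sol

/-- A solution with its limit point. -/
structure SolL (c : Fin n → E) (μ w0 : ℝ) (z T N : ℝ → E) (q w w1 : ℝ → ℝ) (x : E) : Prop where
  s : Sol c μ w0 z T N q w w1
  lim : Tendsto z atTop (𝓝 x)
  near : ∀ t, 0 ≤ t → ‖z t - x‖ ≤ 2 / q t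

namespace SolL

variable {x : E}

theorem lρ (h : SolL c μ w0 z T N q w w1 x) (i : Fin n) :
    Tendsto (fun t => rh c (z t) i) atTop (𝓝 (rh c x i)) :=
  (tendsto_const_nhds.inner h.lim).const_add 1

theorem ρ0 (h : SolL c μ w0 z T N q w w1 x) (i : Fin n) : 0 ≤ rh c x i := by
  refine ge_of_tendsto (h.lρ i) ?_
  filter_upwards [eventually_ge_atTop 0] with t ht
  exact (h.s.pos t ht i).le

theorem ρ_eq (i : Fin n) (hi : rh c x i = 0) (y : E) :
    rh c y i = inner ℝ (c i) (y - x) := by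
  unfold rh at *
  rw [inner_sub_right]
  linarith

/-- Some affine function vanishes at the limit point. -/
theorem exV (h : SolL c μ w0 z T N q w w1 x) : ∃ i, rh c x i = 0 := by
  by_contra hcon
  push Not at hcon
  have h1 : Tendsto (fun t => gr c (z t)) atTop (𝓝 (gr c x)) :=
    tendsto_finsetSum _ fun i _ => ((h.lρ i).inv₀ (hcon i)).smul_const (c i)
  have h2 : Tendsto (fun t => μ * ‖gr c (z t)‖) atTop (𝓝 (μ * ‖gr c x‖)) :=
    h1.norm.const_mul μ
  have h3 : Tendsto (fun t => μ * ‖gr c (z t)‖) atTop atTop := by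
    refine tendsto_atTop_mono' _ ?_ h.s.q_top
    filter_upwards [eventually_ge_atTop 0] with t ht
    rw [h.s.qe t ht, ← mul_neg]
    refine mul_le_mul_of_nonneg_left ?_ h.s.hμ.le
    have h4 := ip_le (gr c (z t)) (N t)
    rw [h.s.nN t ht, mul_one] at h4
    exact (neg_le_abs _).trans h4
  exact not_tendsto_nhds_of_tendsto_atTop h3 _ h2

end SolL

end

end PBH48
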