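import Pool.Agent.Lib.MP_8d4425_gt.H48.End

set_option autoImplicit false

/-!
# Case A: two affine functions vanish at the limit point
-/

namespace PBH48

open Filter Topology PBH54

/-- The comparison argument in one variable.  `u > 0`, `u' ≥ -K P`, `P ≤ M u²`, `q u ≤ L`,
`q' = w ≥ w0 > 0`, `w' ≥ P² q³`, `u → 0`. -/
theorem caseA_scalar {u u' P q w w1 : ℝ → ℝ} {K M L w0 t1 : ℝ} (hK : 0 < K) (hM : 0 < M)
    (hL : 0 < L) (hw0 : 0 < w0) (ht1 : 0 < t1)
    (du : ∀ t, t1 ≤ t → HasDerivAt u (u' t) t) (upos : ∀ t, t1 ≤ t → 0 < u t)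
    (hu' : ∀ t, t1 ≤ t → -(K * P t) ≤ u' t) (hP0 : ∀ t, t1 ≤ t → 0 ≤ P t)
    (hP : ∀ t, t1 ≤ t → P t ≤ M * u t ^ 2)
    (hqu : ∀ t, t1 ≤ t → q t * u t ≤ L) (dq : ∀ t, t1 ≤ t → HasDerivAt q (w t) t)
    (hq : ∀ t, t1 ≤ t → w0 * t ≤ q t) (dw : ∀ t, t1 ≤ t → HasDerivAt w (w1 t) t)
    (hw1 : ∀ t, t1 ≤ t → P t ^ 2 * q t ^ 3 ≤ w1 t) (hu0 : Tendsto u atTop (𝓝 0)) : False := by
  have qpos : ∀ t, t1 ≤ t → 0 < q t := fun t ht =>
    lt_of_lt_of_le (mul_pos hw0 (ht1.trans_le ht)) (hq t ht)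
  have w1n : ∀ t, t1 ≤ t → 0 ≤ w1 t := fun t ht =>
    le_trans (mul_nonneg (sq_nonneg _) (pow_nonneg (qpos t ht).le 3)) (hw1 t ht)
  -- growth of `1 / u`
  obtain ⟨A, B, hA, hB, hinv⟩ : ∃ A B : ℝ, 0 < A ∧ 0 < B ∧ ∀ t, t1 ≤ t → (u t)⁻¹ ≤ A + B * t := by
    refine ⟨(u t1)⁻¹, K * M, inv_pos.mpr (upos t1 le_rfl), mul_pos hK hM, ?_⟩
    intro t ht
    have h1 := anti_of (f := fun t => (u t)⁻¹ - K * M * t)
      (f' := fun t => -u' t / u t ^ 2 - K * M) (a := t1)
      (fun r hr => (((du r hr).inv (upos r hr).ne').sub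
        ((hasDerivAt_id r).const_mul (K * M))).congr_deriv (by simp))
      (fun r hr => by
        have h2 := upos r hr
        have h3 : -u' r ≤ K * M * u r ^ 2 := by
          have h4 := hu' r hr
          have h5 := mul_le_mul_of_nonneg_left (hP r hr) hK.le
          nlinarith
        have h6 : -u' r / u r ^ 2 ≤ K * M := by
          rw [div_le_iff₀ (by positivity)]
          exact h3
        linarith) t1 t le_rfl ht
    have h7 : 0 ≤ K * M * t1 := by positivity
    linarith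
  have hqle : ∀ t, t1 ≤ t → q t ≤ L * (A + B * t) := by
    intro t ht
    have h1 := hqu t ht
    have h2 := upos t ht
    have h3 : q t ≤ L * (u t)⁻¹ := by
      rw [← div_eq_mul_inv, le_div_iff₀ h2]
      exact h1
    exact h3.trans (mul_le_mul_of_nonneg_left (hinv t ht) hL.le)
  have wmono : ∀ s t, t1 ≤ s → s ≤ t → w s ≤ w t := mono_of dw w1n
  -- `w` is bounded
  have wb : ∀ t, t1 ≤ t → w t ≤ L * B + 1 := by
    intro t ht
    by_contra hcon
    push Not at hcon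
    have h1 : ∀ s, t ≤ s → q t + (L * B + 1) * (s - t) ≤ q s := by
      intro s hs
      have h2 := mono_of (f := fun s => q s - (L * B + 1) * s)
        (f' := fun s => w s - (L * B + 1)) (a := t)
        (fun r hr => ((dq r (ht.trans hr)).sub
          ((hasDerivAt_id r).const_mul (L * B + 1))).congr_deriv (by simp))
        (fun r hr => by
          have := wmono t r ht hr
          linarith) t s le_rfl hs
      linarith
    have ht0 : 0 < t := ht1.trans_le ht
    have hLB : 0 < L * B := mul_pos hL hB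
    set s : ℝ := t + (L * A + (L * B + 1) * t + 1) with hs
    have hts : t ≤ s := by
      have : 0 < L * A := mul_pos hL hA
      rw [hs]
      nlinarith
    have h3 := h1 s hts
    have h4 := hqle s (ht.trans hts)
    have h5 := qpos t ht
    have h6 : s - t = L * A + (L * B + 1) * t + 1 := by
      rw [hs]
      ring
    nlinarith
  obtain ⟨W, hW⟩ := exists_lim dw w1n wb
  have hwW : ∀ t, t1 ≤ t → w t ≤ W := le_lim dw w1n hW
  -- the key estimate
  have key : ∀ Λ : ℝ, 0 < Λ → ∀ t, t1 ≤ t → 1 ≤ t →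
      t * u t ≤ K / 2 * (Λ * (W - w t) + 1 / (2 * w0 ^ 3 * Λ)) := by
    intro Λ hΛ t ht ht01
    have ht0 : 0 < t := ht1.trans_le ht
    have h1 := mono_of
      (f := fun s => u s + K / 2 * (Λ / t * w s - t / (2 * w0 ^ 3 * Λ) * (s ^ 2)⁻¹))
      (f' := fun s => u' s + K / 2 * (Λ / t * w1 s - t / (2 * w0 ^ 3 * Λ) *
        (-(2 * s) / (s ^ 2) ^ 2))) (a := t)
      (fun r hr => by
        have hr0 : r ≠ 0 := (ht0.trans_le hr).ne'
        have h2 : HasDerivAt (fun s : ℝ => (s ^ 2)⁻¹) (-(2 * r) / (r ^ 2) ^ 2) r := by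
          have h3 := (hasDerivAt_pow 2 r).inv (pow_ne_zero 2 hr0)
          refine h3.congr_deriv ?_
          simp
        exact (du r (ht.trans hr)).add (((((dw r (ht.trans hr)).const_mul (Λ / t))).sub
          (h2.const_mul (t / (2 * w0 ^ 3 * Λ)))).const_mul (K / 2)))
      (fun r hr => by
        have hr0 : 0 < r := ht0.trans_le hr
        have hrt := ht.trans hr
        have e1 := hu' r hrt
        have e2 := hw1 r hrt
        have e3 : (w0 * r) ^ 3 ≤ q r ^ 3 := pow_le_pow_left₀ (by positivity) (hq r hrt) 3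
        have e4 := hP0 r hrt
        have e5 : Λ / t * (P r ^ 2 * (w0 * r) ^ 3) ≤ Λ / t * w1 r := by
          refine mul_le_mul_of_nonneg_left ?_ (by positivity)
          exact (mul_le_mul_of_nonneg_left e3 (sq_nonneg _)).trans e2
        have e6 : t / (2 * w0 ^ 3 * Λ) * (-(2 * r) / (r ^ 2) ^ 2) =
            -(t / (Λ * (w0 * r) ^ 3)) := by
          field_simp
        have e7 : 2 * P r ≤ Λ / t * (P r ^ 2 * (w0 * r) ^ 3) + t / (Λ * (w0 * r) ^ 3) := by
          have hY : 0 < (w0 * r) ^ 3 := by positivity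
          have e8 : Λ / t * (P r ^ 2 * (w0 * r) ^ 3) + t / (Λ * (w0 * r) ^ 3) - 2 * P r =
              (Λ * (w0 * r) ^ 3 * P r / t - 1) ^ 2 * (t / (Λ * (w0 * r) ^ 3)) := by
            field_simp
            ring
          have e9 : 0 ≤ (Λ * (w0 * r) ^ 3 * P r / t - 1) ^ 2 * (t / (Λ * (w0 * r) ^ 3)) := by
            positivity
          linarith
        rw [e6]
        nlinarith)
    have h3 : Tendsto (fun s => u s + K / 2 * (Λ / t * w s - t / (2 * w0 ^ 3 * Λ) * (s ^ 2)⁻¹))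
        atTop (𝓝 (0 + K / 2 * (Λ / t * W - t / (2 * w0 ^ 3 * Λ) * 0))) := by
      refine hu0.add (((hW.const_mul (Λ / t)).sub (Tendsto.const_mul _ ?_)).const_mul (K / 2))
      exact tendsto_inv_atTop_zero.comp (tendsto_pow_atTop (by norm_num))
    have h4 : u t + K / 2 * (Λ / t * w t - t / (2 * w0 ^ 3 * Λ) * (t ^ 2)⁻¹) ≤
        0 + K / 2 * (Λ / t * W - t / (2 * w0 ^ 3 * Λ) * 0) := by
      refine ge_of_tendsto h3 ?_
      filter_upwards [eventually_ge_atTop t] with s hs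
      exact h1 t s le_rfl hs
    have h5 : t * u t ≤ t * (K / 2 * (Λ / t * (W - w t) +
        t / (2 * w0 ^ 3 * Λ) * (t ^ 2)⁻¹)) := by
      refine mul_le_mul_of_nonneg_left ?_ ht0.le
      linarith
    have h6 : t * (K / 2 * (Λ / t * (W - w t) + t / (2 * w0 ^ 3 * Λ) * (t ^ 2)⁻¹)) =
        K / 2 * (Λ * (W - w t) + 1 / (2 * w0 ^ 3 * Λ)) := by
      field_simp
    linarith
  -- lower bound for `t u`
  have hlow : ∀ t, t1 ≤ t → 1 ≤ t → (A + B)⁻¹ ≤ t * u t := by
    intro t ht h1t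
    have h1 := hinv t ht
    have h2 := upos t ht
    have h3 : A + B * t ≤ (A + B) * t := by nlinarith
    have h4 : (u t)⁻¹ ≤ (A + B) * t := h1.trans h3
    have h5 : 0 < A + B := by linarith
    rw [inv_le_iff_one_le_mul₀ h5]
    rw [inv_le_iff_one_le_mul₀ h2] at h4
    linarith
  -- choice of `Λ`
  have hAB : 0 < A + B := by linarith
  set Λ : ℝ := K * (A + B) / w0 ^ 3 with hΛ
  have hΛ0 : 0 < Λ := by positivity
  have h1 : K / 2 * (1 / (2 * w0 ^ 3 * Λ)) = (A + B)⁻¹ / 4 := by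
    rw [hΛ]
    field_simp
    norm_num
  have h2 : Tendsto (fun t => K / 2 * (Λ * (W - w t) + 1 / (2 * w0 ^ 3 * Λ))) atTop
      (𝓝 (K / 2 * (Λ * (W - W) + 1 / (2 * w0 ^ 3 * Λ)))) :=
    (((hW.const_sub W).const_mul Λ).add_const _).const_mul (K / 2)
  have h3 : (A + B)⁻¹ ≤ K / 2 * (Λ * (W - W) + 1 / (2 * w0 ^ 3 * Λ)) := by
    refine ge_of_tendsto h2 ?_
    filter_upwards [eventually_ge_atTop t1, eventually_ge_atTop 1] with t ha hb
    exact (hlow t ha hb).trans (key Λ hΛ0 t ha hb)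
  rw [sub_self, mul_zero, zero_add, h1] at h3
  have h4 : 0 < (A + B)⁻¹ := inv_pos.mpr hAB
  linarith

variable {E : Type} [NormedAddCommGroup E] [InnerProductSpace ℝ E] {n : ℕ}
variable {c : Fin n → E} {μ w0 : ℝ} {z T N : ℝ → E} {q w w1 : ℝ → ℝ} {x : E}

/-- Two affine functions cannot vanish at the limit point. -/
theorem SolL.caseA (h : SolL c μ w0 z T N q w w1 x) (i j : Fin n) (hij : i ≠ j)
    (hi : rh c x i = 0) (hj : rh c x j = 0) : False := by
  have hP : ∀ y : E, Pr c y = rh c y i * (rh c y j *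
      ∏ k ∈ (Finset.univ.erase i).erase j, rh c y k) := by
    intro y
    unfold Pr
    rw [← Finset.mul_prod_erase _ _ (Finset.mem_univ i),
      ← Finset.mul_prod_erase (Finset.univ.erase i) _
        (Finset.mem_erase.mpr ⟨hij.symm, Finset.mem_univ j⟩)]
  -- bound for the other factors
  obtain ⟨M, hM, hMb⟩ : ∃ M : ℝ, 0 < M ∧ ∀ᶠ t in atTop,
      ∏ k ∈ (Finset.univ.erase i).erase j, rh c (z t) k ≤ M := by
    have h1 : Tendsto (fun t => ∏ k ∈ (Finset.univ.erase i).erase j, rh c (z t) k) atTop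
        (𝓝 (∏ k ∈ (Finset.univ.erase i).erase j, rh c x k)) :=
      tendsto_finsetProd _ fun k _ => h.lρ k
    have h2 : 0 ≤ ∏ k ∈ (Finset.univ.erase i).erase j, rh c x k :=
      Finset.prod_nonneg fun k _ => h.ρ0 k
    exact ⟨_, by linarith, h1.eventually (eventually_le_nhds (lt_add_one _))⟩
  obtain ⟨t1, ht1⟩ := (hMb.and (eventually_ge_atTop 1)).exists_forall_of_atTop
  have ht11 : 1 ≤ t1 := (ht1 t1 le_rfl).2
  have hnn : ∀ t, t1 ≤ t → 0 ≤ t := fun t ht => by linarith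
  have hci : c i ≠ 0 := by
    intro h0
    rw [rh, h0, inner_zero_left] at hi
    norm_num at hi
  have hK : 0 < ‖c i‖ + ‖c j‖ := add_pos_of_pos_of_nonneg (norm_pos_iff.mpr hci) (norm_nonneg _)
  refine caseA_scalar (u := fun t => rh c (z t) i + rh c (z t) j)
    (u' := fun t => Pr c (z t) * inner ℝ (c i) (T t) + Pr c (z t) * inner ℝ (c j) (T t))
    (P := fun t => Pr c (z t)) (q := q) (w := w) (w1 := w1) (K := ‖c i‖ + ‖c j‖) (M := M)
    (L := 2 * (‖c i‖ + ‖c j‖)) (w0 := w0) (t1 := t1) hK hM (by linarith) h.s.hw (by linarith)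
    ?_ ?_ ?_ ?_ ?_ ?_ ?_ ?_ ?_ ?_ ?_
  · intro t ht
    exact (h.s.dρ i t (hnn t ht)).add (h.s.dρ j t (hnn t ht))
  · intro t ht
    exact add_pos (h.s.pos t (hnn t ht) i) (h.s.pos t (hnn t ht) j)
  · intro t ht
    have h1 := ip_le (c i) (T t)
    have h2 := ip_le (c j) (T t)
    rw [h.s.nT t (hnn t ht), mul_one] at h1 h2
    have h3 := (abs_le.mp h1).1
    have h4 := (abs_le.mp h2).1
    have h5 := (h.s.P_pos t (hnn t ht)).le
    have h6 := mul_le_mul_of_nonneg_left h3 h5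
    have h7 := mul_le_mul_of_nonneg_left h4 h5
    change -((‖c i‖ + ‖c j‖) * Pr c (z t)) ≤ _
    nlinarith
  · intro t ht
    exact (h.s.P_pos t (hnn t ht)).le
  · intro t ht
    have h1 := (ht1 t ht).1
    have h2 := h.s.pos t (hnn t ht) i
    have h3 := h.s.pos t (hnn t ht) j
    have h4 : 0 < rh c (z t) i * rh c (z t) j := mul_pos h2 h3
    change Pr c (z t) ≤ M * (rh c (z t) i + rh c (z t) j) ^ 2
    rw [hP, ← mul_assoc]
    calc rh c (z t) i * rh c (z t) j * ∏ k ∈ (Finset.univ.erase i).erase j, rh c (z t) k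
        ≤ rh c (z t) i * rh c (z t) j * M := mul_le_mul_of_nonneg_left h1 h4.le
      _ ≤ M * (rh c (z t) i + rh c (z t) j) ^ 2 := by
          rw [mul_comm]
          refine mul_le_mul_of_nonneg_left ?_ hM.le
          nlinarith
  · intro t ht
    have h0 := hnn t ht
    have h1 : rh c (z t) i + rh c (z t) j ≤ (‖c i‖ + ‖c j‖) * ‖z t - x‖ := by
      rw [SolL.ρ_eq i hi (z t), SolL.ρ_eq j hj (z t)]
      have h2 := le_of_abs_le (ip_le (c i) (z t - x))
      have h3 := le_of_abs_le (ip_le (c j) (z t - x))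
      linarith
    have h2 := h.near t h0
    have h3 := h.s.qpos t h0
    have h4 : (‖c i‖ + ‖c j‖) * ‖z t - x‖ ≤ (‖c i‖ + ‖c j‖) * (2 / q t) :=
      mul_le_mul_of_nonneg_left h2 hK.le
    have h5 := mul_le_mul_of_nonneg_left (h1.trans h4) h3.le
    have h6 : q t * ((‖c i‖ + ‖c j‖) * (2 / q t)) = 2 * (‖c i‖ + ‖c j‖) := by
      field_simp
    linarith
  · intro t ht
    exact h.s.dq t (hnn t ht)
  · intro t ht
    have h1 := h.s.q_ge t (hnn t ht)
    have h2 := h.s.qpos 0 le_rfl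
    linarith
  · intro t ht
    exact h.s.dw t (hnn t ht)
  · intro t ht
    exact h.s.w1ge t (hnn t ht)
  · have h1 := (h.lρ i).add (h.lρ j)
    rw [hi, hj, add_zero] at h1
    exact h1

end PBH48
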