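import Pool.Agent.Lib.MP_8d4425_gt.H48.EndA

set_option autoImplicit false

/-!
# Case B: exactly one affine function vanishes at the limit point
-/

namespace PBH48

open Filter Topology PBH54

variable {E : Type} [NormedAddCommGroup E] [InnerProductSpace ℝ E] {n : ℕ}
variable {c : Fin n → E} {μ w0 : ℝ} {z T N : ℝ → E} {q w w1 : ℝ → ℝ} {x : E}

/-- Bessel for two orthonormal vectors. -/
theorem bessel2 {a u v : E} (hu : ‖u‖ = 1) (hv : ‖v‖ = 1) (huv : inner ℝ u v = (0 : ℝ)) :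
    (inner ℝ a u : ℝ) ^ 2 + (inner ℝ a v : ℝ) ^ 2 ≤ ‖a‖ ^ 2 := by
  have h1 : ‖a - (inner ℝ a u : ℝ) • u - (inner ℝ a v : ℝ) • v‖ ^ 2 =
      ‖a‖ ^ 2 - (inner ℝ a u : ℝ) ^ 2 - (inner ℝ a v : ℝ) ^ 2 := by
    rw [← real_inner_self_eq_norm_sq]
    simp only [inner_sub_left, inner_sub_right, real_inner_smul_left, real_inner_smul_right]
    have e1 : (inner ℝ u u : ℝ) = 1 := by
      rw [real_inner_self_eq_norm_sq, hu]
      norm_num
    have e2 : (inner ℝ v v : ℝ) = 1 := by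
      rw [real_inner_self_eq_norm_sq, hv]
      norm_num
    have e3 : (inner ℝ v u : ℝ) = 0 := by
      rw [real_inner_comm]
      exact huv
    rw [e1, e2, e3, huv, real_inner_comm u a, real_inner_comm v a, real_inner_self_eq_norm_sq]
    ring
  have h2 : 0 ≤ ‖a - (inner ℝ a u : ℝ) • u - (inner ℝ a v : ℝ) • v‖ ^ 2 := sq_nonneg _
  linarith

/-- The gradient without the singular term. -/
noncomputable def g0 (c : Fin n → E) (i : Fin n) (y : E) : E :=
  ∑ k ∈ Finset.univ.erase i, (rh c y k)⁻¹ • c k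

theorem gr_split (c : Fin n → E) (i : Fin n) (y : E) : gr c y = (rh c y i)⁻¹ • c i + g0 c i y := by
  unfold gr g0
  exact (Finset.add_sum_erase Finset.univ (fun k => (rh c y k)⁻¹ • c k) (Finset.mem_univ i)).symm

theorem dτ (h : Sol c μ w0 z T N q w w1) (a : E) : ∀ t, 0 ≤ t →
    HasDerivAt (fun t => (inner ℝ a (T t) : ℝ)) (Pr c (z t) * (inner ℝ a (gr c (z t)) -
      inner ℝ (gr c (z t)) (T t) * inner ℝ a (T t) -
      (1 - μ) * inner ℝ (gr c (z t)) (N t) * inner ℝ a (N t))) t := by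
  intro t ht
  have h1 := (hasDerivAt_const t a).inner ℝ (h.dT t ht)
  refine h1.congr_deriv ?_
  rw [inner_zero_left, add_zero, real_inner_smul_right, inner_sub_right, inner_sub_right,
    real_inner_smul_right, real_inner_smul_right]

theorem dη (h : Sol c μ w0 z T N q w w1) (a : E) : ∀ t, 0 ≤ t →
    HasDerivAt (fun t => (inner ℝ a (N t) : ℝ)) (Pr c (z t) * q t * inner ℝ a (T t)) t := by
  intro t ht
  have h1 := (hasDerivAt_const t a).inner ℝ (h.dN t ht)
  refine h1.congr_deriv ?_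
  rw [inner_zero_left, add_zero, real_inner_smul_right]

/-- One affine function cannot be the only one which vanishes at the limit point. -/
theorem SolL.caseB (h : SolL c μ w0 z T N q w w1 x) (i : Fin n)
    (hi : rh c x i = 0) (hj : ∀ j, j ≠ i → rh c x j ≠ 0) : False := by
  have hci : c i ≠ 0 := by
    intro h0
    rw [rh, h0, inner_zero_left] at hi
    norm_num at hi
  have hcn : 0 < ‖c i‖ := norm_pos_iff.mpr hci
  -- bound for `g0`
  obtain ⟨G, hG, hGb⟩ : ∃ G : ℝ, 0 < G ∧ ∀ᶠ t in atTop, ‖g0 c i (z t)‖ ≤ G := by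
    have h1 : Tendsto (fun t => g0 c i (z t)) atTop (𝓝 (g0 c i x)) :=
      tendsto_finsetSum _ fun k hk =>
        ((h.lρ k).inv₀ (hj k (Finset.ne_of_mem_erase hk))).smul_const (c k)
    have h2 := norm_nonneg (g0 c i x)
    exact ⟨_, by linarith, h1.norm.eventually (eventually_le_nhds (lt_add_one _))⟩
  have hρ0 : Tendsto (fun t => rh c (z t) i) atTop (𝓝 0) := by
    have := h.lρ i
    rwa [hi] at this
  have hδ : 0 < μ * ‖c i‖ / (2 * G) := by
    have := h.s.hμ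
    positivity
  obtain ⟨t1, ht1⟩ := ((hGb.and (hρ0.eventually (gt_mem_nhds hδ))).and
    (eventually_ge_atTop 0)).exists_forall_of_atTop
  have ht10 : 0 ≤ t1 := (ht1 t1 le_rfl).2
  have hnn : ∀ t, t1 ≤ t → 0 ≤ t := fun t ht => ht10.trans ht
  -- abbreviations
  set τ : ℝ → ℝ := fun t => inner ℝ (c i) (T t) with hτ
  set η : ℝ → ℝ := fun t => inner ℝ (c i) (N t) with hη
  set ρ : ℝ → ℝ := fun t => rh c (z t) i with hρ
  have hρp : ∀ t, t1 ≤ t → 0 < ρ t := fun t ht => h.s.pos t (hnn t ht) i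
  have hbes : ∀ t, t1 ≤ t → τ t ^ 2 + η t ^ 2 ≤ ‖c i‖ ^ 2 := fun t ht =>
    bessel2 (h.s.nT t (hnn t ht)) (h.s.nN t (hnn t ht)) (h.s.TN t (hnn t ht))
  have hgT : ∀ t, inner ℝ (gr c (z t)) (T t) = (ρ t)⁻¹ * τ t + inner ℝ (g0 c i (z t)) (T t) := by
    intro t
    rw [gr_split c i, inner_add_left, real_inner_smul_left]
  have hgN : ∀ t, inner ℝ (gr c (z t)) (N t) = (ρ t)⁻¹ * η t + inner ℝ (g0 c i (z t)) (N t) := by
    intro t
    rw [gr_split c i, inner_add_left, real_inner_smul_left]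
  have hgc : ∀ t, inner ℝ (c i) (gr c (z t)) =
      (ρ t)⁻¹ * ‖c i‖ ^ 2 + inner ℝ (c i) (g0 c i (z t)) := by
    intro t
    rw [gr_split c i, inner_add_right, real_inner_smul_right, real_inner_self_eq_norm_sq]
  have hg0N : ∀ t, t1 ≤ t → |(inner ℝ (g0 c i (z t)) (N t) : ℝ)| ≤ G := by
    intro t ht
    have h1 := ip_le (g0 c i (z t)) (N t)
    rw [h.s.nN t (hnn t ht), mul_one] at h1
    exact h1.trans (ht1 t ht).1.1
  have hg0c : ∀ t, t1 ≤ t → |(inner ℝ (c i) (g0 c i (z t)) : ℝ)| ≤ ‖c i‖ * G := by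
    intro t ht
    exact (ip_le _ _).trans (mul_le_mul_of_nonneg_left (ht1 t ht).1.1 hcn.le)
  -- `τ' > 0` where `τ = 0`
  have hup : ∀ t, t1 ≤ t → τ t = 0 → 0 < Pr c (z t) * (inner ℝ (c i) (gr c (z t)) -
      inner ℝ (gr c (z t)) (T t) * τ t -
      (1 - μ) * inner ℝ (gr c (z t)) (N t) * η t) := by
    intro t ht h0
    have hP := h.s.P_pos t (hnn t ht)
    refine mul_pos hP ?_
    rw [h0, mul_zero, sub_zero, hgc, hgN]
    have e1 := hbes t ht
    rw [h0] at e1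
    have e2 := hρp t ht
    have e3 : ρ t < μ * ‖c i‖ / (2 * G) := (ht1 t ht).1.2
    have e4 := hg0N t ht
    have e5 := hg0c t ht
    have e6 := h.s.hμ
    have e7 := h.s.hμ1
    have e8 : |η t| ≤ ‖c i‖ := by
      refine abs_le_of_sq_le_sq ?_ hcn.le
      nlinarith
    have e9 : |(1 - μ) * (inner ℝ (g0 c i (z t)) (N t) : ℝ) * η t| ≤ ‖c i‖ * G := by
      rw [abs_mul, abs_mul, abs_of_nonneg (by linarith : (0 : ℝ) ≤ 1 - μ)]
      have f1 : (1 - μ) * |(inner ℝ (g0 c i (z t)) (N t) : ℝ)| ≤ G := by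
        nlinarith [abs_nonneg (inner ℝ (g0 c i (z t)) (N t) : ℝ)]
      calc (1 - μ) * |(inner ℝ (g0 c i (z t)) (N t) : ℝ)| * |η t|
          ≤ G * ‖c i‖ := mul_le_mul f1 e8 (abs_nonneg _) hG.le
        _ = ‖c i‖ * G := mul_comm _ _
    have e10 : (ρ t)⁻¹ * ‖c i‖ ^ 2 - (1 - μ) * ((ρ t)⁻¹ * η t) * η t ≥
        (ρ t)⁻¹ * (μ * ‖c i‖ ^ 2) := by
      have f1 : (1 - μ) * η t ^ 2 ≤ (1 - μ) * ‖c i‖ ^ 2 :=
        mul_le_mul_of_nonneg_left (by nlinarith) (by linarith)
      have f2 : (ρ t)⁻¹ * (‖c i‖ ^ 2 - (1 - μ) * η t ^ 2) ≥ (ρ t)⁻¹ * (μ * ‖c i‖ ^ 2) :=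
        mul_le_mul_of_nonneg_left (by linarith) (inv_pos.mpr e2).le
      have f3 : (ρ t)⁻¹ * ‖c i‖ ^ 2 - (1 - μ) * ((ρ t)⁻¹ * η t) * η t =
          (ρ t)⁻¹ * (‖c i‖ ^ 2 - (1 - μ) * η t ^ 2) := by ring
      rw [f3]
      exact f2
    have e11 : 2 * (‖c i‖ * G) < (ρ t)⁻¹ * (μ * ‖c i‖ ^ 2) := by
      rw [inv_mul_eq_div, lt_div_iff₀ e2]
      rw [lt_div_iff₀ (by positivity)] at e3
      nlinarith
    have e12 := (abs_le.mp e5).1
    have e13 := (abs_le.mp e9).2
    have e14 : (1 - μ) * ((ρ t)⁻¹ * η t + (inner ℝ (g0 c i (z t)) (N t) : ℝ)) * η t =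
        (1 - μ) * ((ρ t)⁻¹ * η t) * η t + (1 - μ) * (inner ℝ (g0 c i (z t)) (N t) : ℝ) * η t := by
      ring
    rw [e14]
    linarith
  -- `τ < 0`
  have hτn : ∀ t, t1 ≤ t → τ t < 0 := by
    intro t2 ht2
    by_contra hcon
    push Not at hcon
    have hge : ∀ t, t2 ≤ t → 0 ≤ τ t := by
      intro t3 ht3
      have h1 := image_le_of_deriv_right_lt_deriv_boundary' (f := fun t => -τ t)
        (f' := fun t => -(Pr c (z t) * (inner ℝ (c i) (gr c (z t)) -
          inner ℝ (gr c (z t)) (T t) * τ t -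
          (1 - μ) * inner ℝ (gr c (z t)) (N t) * η t))) (a := t2) (b := t3)
        (B := fun _ => 0) (B' := fun _ => 0)
        (fun r hr => (dτ h.s (c i) r (hnn r (ht2.trans hr.1))).neg.continuousAt.continuousWithinAt)
        (fun r hr => (dτ h.s (c i) r (hnn r (ht2.trans hr.1))).neg.hasDerivWithinAt)
        (by simpa using hcon) continuousOn_const
        (fun r _ => hasDerivWithinAt_const _ _ _)
        (fun r hr h0 => by
          have h2 := hup r (ht2.trans hr.1) (by linarith)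
          linarith) (⟨ht3, le_rfl⟩ : t3 ∈ Set.Icc t2 t3)
      linarith
    have hmono := mono_of (f := ρ) (f' := fun t => Pr c (z t) * τ t) (a := t2)
      (fun r hr => h.s.dρ i r (hnn r (ht2.trans hr)))
      (fun r hr => mul_nonneg (h.s.P_pos r (hnn r (ht2.trans hr))).le (hge r hr))
    have h1 : ρ t2 ≤ 0 := by
      refine ge_of_tendsto hρ0 ?_
      filter_upwards [eventually_ge_atTop t2] with t ht
      exact hmono t2 t le_rfl ht
    have h2 := hρp t2 ht2
    linarith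
  -- the comparison
  have hμ := h.s.hμ
  have hA : ∀ t, t1 ≤ t → HasDerivAt
      (fun t => ρ t ^ μ * η t + μ * G / (μ + 1) * ρ t ^ (μ + 1))
      (μ * (Pr c (z t) * τ t * ρ t ^ μ * (G - inner ℝ (g0 c i (z t)) (N t)))) t := by
    intro t ht
    have h0 := hρp t ht
    have d1 : HasDerivAt ρ (Pr c (z t) * τ t) t := h.s.dρ i t (hnn t ht)
    have d2 : HasDerivAt η (Pr c (z t) * q t * τ t) t := dη h.s (c i) t (hnn t ht)
    have d3 := d1.rpow_const (p := μ) (Or.inl h0.ne')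
    have d4 := d1.rpow_const (p := μ + 1) (Or.inl h0.ne')
    refine ((d3.mul d2).add (d4.const_mul (μ * G / (μ + 1)))).congr_deriv ?_
    have e1 : q t = -(μ * ((ρ t)⁻¹ * η t + inner ℝ (g0 c i (z t)) (N t))) := by
      rw [h.s.qe t (hnn t ht), hgN]
    have e2 : ρ t ^ (μ - 1) = ρ t ^ μ * (ρ t)⁻¹ := by
      rw [Real.rpow_sub h0, Real.rpow_one, div_eq_mul_inv]
    have e3 : μ + 1 - 1 = μ := by ring
    have e4 : μ + 1 ≠ 0 := by linarith
    rw [e1, e2, e3]
    field_simp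
    ring
  have hanti := anti_of hA (fun t ht => by
    have h1 := hτn t ht
    have h2 := (abs_le.mp (hg0N t ht)).2
    have h3 := h.s.P_pos t (hnn t ht)
    have h4 : 0 < ρ t ^ μ := Real.rpow_pos_of_pos (hρp t ht) μ
    have h5 : Pr c (z t) * τ t * ρ t ^ μ ≤ 0 :=
      mul_nonpos_of_nonpos_of_nonneg (mul_nonpos_of_nonneg_of_nonpos h3.le h1.le) h4.le
    exact mul_nonpos_of_nonneg_of_nonpos hμ.le
      (mul_nonpos_of_nonpos_of_nonneg h5 (by linarith)))
  have hlim : Tendsto (fun t => ρ t ^ μ * η t + μ * G / (μ + 1) * ρ t ^ (μ + 1)) atTop (𝓝 0) := by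
    have l1 : Tendsto (fun t => ρ t ^ μ) atTop (𝓝 0) := by
      have := hρ0.rpow_const (p := μ) (Or.inr hμ.le)
      rwa [Real.zero_rpow hμ.ne'] at this
    have l2 : Tendsto (fun t => ρ t ^ (μ + 1)) atTop (𝓝 0) := by
      have := hρ0.rpow_const (p := μ + 1) (Or.inr (by linarith))
      rwa [Real.zero_rpow (by linarith)] at this
    have l3 : Tendsto (fun t => ρ t ^ μ * η t) atTop (𝓝 0) := by
      rw [tendsto_zero_iff_abs_tendsto_zero]
      have l4 : Tendsto (fun t => ρ t ^ μ * ‖c i‖) atTop (𝓝 0) := by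
        have := l1.mul_const ‖c i‖
        rwa [zero_mul] at this
      refine squeeze_zero' (Eventually.of_forall fun t => abs_nonneg _) ?_ l4
      filter_upwards [eventually_ge_atTop t1] with t ht
      change |ρ t ^ μ * η t| ≤ _
      rw [abs_mul, abs_of_pos (Real.rpow_pos_of_pos (hρp t ht) μ)]
      refine mul_le_mul_of_nonneg_left ?_ (Real.rpow_pos_of_pos (hρp t ht) μ).le
      have e1 := hbes t ht
      refine abs_le_of_sq_le_sq ?_ hcn.le
      nlinarith [sq_nonneg (τ t)]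
    have := l3.add (l2.const_mul (μ * G / (μ + 1)))
    rwa [mul_zero, add_zero] at this
  have hqb : ∀ t, t1 ≤ t → q t ≤ μ * (μ * G / (μ + 1) + G) := by
    intro t ht
    have h0 := hρp t ht
    have h1 : 0 ≤ ρ t ^ μ * η t + μ * G / (μ + 1) * ρ t ^ (μ + 1) := by
      refine le_of_tendsto hlim ?_
      filter_upwards [eventually_ge_atTop t] with r hr
      exact hanti t r ht hr
    rw [Real.rpow_add h0, Real.rpow_one] at h1
    have h2 : 0 < ρ t ^ μ := Real.rpow_pos_of_pos h0 μ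
    have h3 : 0 ≤ η t + μ * G / (μ + 1) * ρ t := by
      by_contra hcon
      push Not at hcon
      nlinarith
    have h4 : -(μ * G / (μ + 1)) ≤ (ρ t)⁻¹ * η t := by
      rw [inv_mul_eq_div, le_div_iff₀ h0]
      linarith
    have h5 := (abs_le.mp (hg0N t ht)).1
    rw [h.s.qe t (hnn t ht), hgN]
    nlinarith
  obtain ⟨t2, ht2, ht21⟩ := ((h.s.q_top.eventually_gt_atTop (μ * (μ * G / (μ + 1) + G))).and
    (eventually_ge_atTop t1)).exists
  have := hqb t2 ht21
  linarith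

/-- **No solution for all times.** -/
theorem no_sol [CompleteSpace E] (h : Sol c μ w0 z T N q w w1) : False := by
  obtain ⟨x, hx, hx2⟩ := h.exists_limit
  have hL : SolL c μ w0 z T N q w w1 x := ⟨h, hx, hx2⟩
  obtain ⟨i, hi⟩ := hL.exV
  by_cases hj : ∃ j, j ≠ i ∧ rh c x j = 0
  · obtain ⟨j, hji, hj0⟩ := hj
    exact hL.caseA i j hji.symm hi hj0
  · push Not at hj
    exact hL.caseB i hi hj

end PBH48
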